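import Pool.Agent.W2helper83.BT.Defs4

/-! Project BT4, piece PLACE. -/

set_option autoImplicit false

namespace Pool.Agent.W2helper19.BT4

open IsDedekindDomain NumberField Pool.Agent.W2helper83.BT

theorem place : PLACE := by
  intro K L _ _ _ _ _ S hS
  classical
  have hinj : Function.Injective (algebraMap (𝓞 K) (𝓞 L)) :=
    FaithfulSMul.algebraMap_injective (𝓞 K) (𝓞 L)
  refine ⟨⋃ v ∈ S, {w : HeightOneSpectrum (𝓞 L) |
    w.asIdeal ∣ v.asIdeal.map (algebraMap (𝓞 K) (𝓞 L))}, ?_, ?_⟩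
  · refine hS.biUnion fun v _ => Ideal.finite_factors ?_
    intro h
    exact v.ne_bot ((Ideal.map_eq_bot_iff_of_injective hinj).1 h)
  · intro w hw
    refine ⟨w.under (𝓞 K), ?_, ?_⟩
    · intro hv
      apply hw
      refine Set.mem_iUnion₂.2 ⟨_, hv, ?_⟩
      rw [Set.mem_ofPred_eq, Ideal.dvd_iff_le]
      exact Ideal.map_comap_le
    · intro x
      have hl : w.asIdeal.LiesOver (w.under (𝓞 K)).asIdeal := ⟨rfl⟩
      rw [← HeightOneSpectrum.valuation_liesOver L (w.under (𝓞 K)) w x]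
      exact pow_le_one_iff
        (Ideal.IsDedekindDomain.ramificationIdx'_ne_zero_of_liesOver w.asIdeal
          (w.under (𝓞 K)).ne_bot)

end Pool.Agent.W2helper19.BT4
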